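import Pool.Agent.W821.SG.AB1

/-!
MP_9a3597_al, project SG: SG-AB (the case `D = 0`), second part.
-/

namespace Pool.Agent.W821.SG

open Pool.Agent.W37.SG
open scoped BigOperators

set_option linter.unusedSectionVars false
set_option linter.unusedVariables false

variable {p : ℕ} [hpf : Fact p.Prime]

/-- roots of unity of `p`-power order congruent to one -/
lemma root_one (hp : p ≠ 2) {u : ℤ_[p]} (hu : (p : ℤ_[p]) ∣ u - 1) {a : ℕ}
    (h : u ^ p ^ a = 1) : u = 1 := by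
  have hodd : Odd p := hpf.out.odd_of_ne_two hp
  have hnd : ¬ (p : ℤ_[p]) ∣ u := by
    intro h0
    have := dvd_sub h0 hu
    rw [sub_sub_cancel] at this
    exact PadicInt.prime_p.not_isUnit (isUnit_of_dvd_one this)
  have h1 := emultiplicity_pow_prime_pow_sub_pow_prime_pow (PadicInt.prime_p (p := p)) hodd hu
    hnd a
  rw [one_pow, h, sub_self] at h1
  by_contra hne
  have h2 : u - 1 ≠ 0 := sub_ne_zero.mpr hne
  have h3 := FiniteMultiplicity.of_prime_left (PadicInt.prime_p (p := p)) h2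
  rw [emultiplicity_zero, h3.emultiplicity_eq_multiplicity] at h1
  exact absurd h1.symm (by exact_mod_cast ENat.natCast_ne_top _)

lemma tri_pow_agr {g : Pm p} (hg : IsTri p g) {k : ℕ} {x : ℕ → ZMod p} (h : Agr p k (g x) x)
    (n : ℕ) : Agr p k ((g ^ n) x) x := by
  induction n with
  | zero => exact agr_refl k x
  | succ n ih =>
    have h1 : (g ^ (n + 1)) x = g ((g ^ n) x) := by rw [pow_succ']; rfl
    rw [h1]
    exact agr_trans (agr_tri hg ih) h

lemma ker_pow {g : Pm p} (hg : IsTri p g) {k : ℕ} (h : IsKer p k g) : IsKer p (k + 1) (g ^ p) := by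
  have hn : ∀ (n : ℕ) (x : ℕ → ZMod p), Agr p k ((g ^ n) x) x ∧
      (g ^ n) x k = x k + n * (g x k - x k) := by
    intro n x
    have h1 := tri_pow_agr hg (agr_ker h x)
    refine ⟨h1 n, ?_⟩
    induction n with
    | zero => simp
    | succ n ih =>
      have h2 : (g ^ (n + 1)) x = g ((g ^ n) x) := by rw [pow_succ']; rfl
      have h3 := hg k ((g ^ n) x) x (h1 n)
      rw [h2, sub_eq_iff_eq_add.mp h3, ih]
      push_cast
      ring
  intro x i hi
  obtain ⟨h1, h2⟩ := hn p x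
  rcases Nat.lt_succ_iff_lt_or_eq.mp hi with h3 | h3
  · exact h1 i h3
  · subst h3
    rw [h2]
    simp

lemma ker_pow_pow {Q : Subgroup (Pm p)} (hQ : ∀ g ∈ Q, IsTri p g) {g : Pm p} (hg : g ∈ Q)
    (k : ℕ) : IsKer p k (g ^ p ^ k) := by
  induction k with
  | zero => intro x i hi; omega
  | succ k ih =>
    have := ker_pow (hQ _ (Q.pow_mem hg _)) ih
    rwa [← pow_mul, ← pow_succ] at this

section
variable {s J α : ℕ} {Q : Subgroup (Pm p)} {X : Pm p} {Φ : Zf p} {e : Pm p → Zf p}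
variable {Λ : Submodule ℤ_[p] (Zf p)} {D : Zf p → Zf p}

/-- what is used from the first part -/
structure KHyp (p s l0 : ℕ) [Fact p.Prime] (Q : Subgroup (Pm p)) (e : Pm p → Zf p) : Prop where
  odd : p ≠ 2
  tri : ∀ g ∈ Q, IsTri p g
  one : ∀ g ∈ Q, ∀ x, (p : ℤ_[p]) ∣ e g x - 1
  mul : ∀ g ∈ Q, ∀ h ∈ Q, ∀ x, e (g * h) x = e g (h x) * e h x
  fib : ∀ g ∈ Q, ∀ x y, Agr p l0 x y → e g x = e g y
  ker : ∀ g ∈ Q, IsKer p l0 g → ∀ x, e g x = 1
  e1 : ∀ x, e 1 x = 1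

lemma mkKHyp (hB : BHyp p s Q X J α Φ) (hE : EHyp p s Q X J Φ e) (hL : LHyp p Q J α e Λ)
    (hD : DHyp p s J Φ Λ D) (hD0 : ∀ f ∈ Λ, ∀ x, D f x = 0) : KHyp p s (J + 2) Q e where
  odd := hB.odd
  tri := hB.tri
  one := hE.one
  mul := hE.mul
  fib := by
    intro g hg x y hxy
    have h1 : (fun x => e g x) ∈ Λ := by
      have := hL.act g hg _ hL.one_mem
      simpa using this
    exact partC hB hE hL hD hD0 h1 (agr_mono (Nat.le_succ _) hxy)
  ker := fun g hg hk x => partB1 hB hE hL hD hD0 hg hk x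
  e1 := e_one hE

variable {l0 : ℕ}

/-- part (d) -/
lemma partD (hK : KHyp p s l0 Q e) {g : Pm p} (hg : g ∈ Q) {x : ℕ → ZMod p}
    (h : Agr p l0 (g x) x) : e g x = 1 := by
  have hgt := hK.tri g hg
  have h1 : ∀ n : ℕ, e (g ^ n) x = e g x ^ n := by
    intro n
    induction n with
    | zero => simpa using hK.e1 x
    | succ n ih =>
      rw [pow_succ', hK.mul g hg _ (Q.pow_mem hg n), ih, hK.fib g hg _ _ (tri_pow_agr hgt h n),
        pow_succ']
  have h2 := hK.ker _ (Q.pow_mem hg _) (ker_pow_pow hK.tri hg l0) x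
  rw [h1] at h2
  exact root_one hK.odd (hK.one g hg x) h2

/-- part (e) -/
lemma partE (hK : KHyp p s l0 Q e)
    (htr : ∀ (k : ℕ) (x y : ℕ → ZMod p), ∃ g ∈ Q, Agr p k (g x) y) :
    ∃ E : Zf p, (∀ x, (p : ℤ_[p]) ∣ E x - 1) ∧
      ∀ g ∈ Q, ∀ x y, Agr p l0 (g x) y → e g x * E x = E y := by
  classical
  choose h hQ hh using fun x => htr l0 (fun _ => 0) x
  refine ⟨fun x => e (h x) (fun _ => 0), fun x => hK.one _ (hQ x) _, ?_⟩
  intro g hg x y hxy
  set x0 : ℕ → ZMod p := fun _ => 0 with hx0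
  have hgt := hK.tri g hg
  have hi := Q.inv_mem (hQ y)
  have hit := hK.tri _ hi
  have h1 : Agr p l0 (g (h x x0)) (g x) := agr_tri hgt (hh x)
  have h2 : Agr p l0 (g (h x x0)) (h y x0) := agr_trans (agr_trans h1 hxy) (agr_symm (hh y))
  have h3 : Agr p l0 (((h y)⁻¹ * (g * h x)) x0) x0 := by
    have h4 := agr_tri hit h2
    have h5 : (h y)⁻¹ (h y x0) = x0 := by simp
    rw [h5] at h4
    exact h4
  have hm : (h y)⁻¹ * (g * h x) ∈ Q := Q.mul_mem hi (Q.mul_mem hg (hQ x))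
  have h4 := partD hK hm h3
  have h5 := hK.mul (h y) (hQ y) _ hm x0
  rw [h4, mul_one, mul_inv_cancel_left, hK.mul g hg _ (hQ x), hK.fib _ (hQ y) _ _ h3] at h5
  beta_reduce
  rw [← h5, hK.fib g hg _ _ (hh x)]

/-- prefix -/
def pre (p l : ℕ) (x : ℕ → ZMod p) : Fin l → ZMod p := fun i => x i

lemma ext_pre (l : ℕ) (x : ℕ → ZMod p) : Agr p l (ext0 p l (pre p l x)) x := by
  intro j hj
  unfold ext0 pre
  rw [dif_pos hj]

lemma pre_ext (l : ℕ) (w : Fin l → ZMod p) : pre p l (ext0 p l w) = w := by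
  funext i
  show (if h : (i : ℕ) < l then w ⟨i, h⟩ else 0) = w i
  rw [dif_pos i.2]

lemma pre_congr {l : ℕ} {x y : ℕ → ZMod p} (h : Agr p l x y) : pre p l x = pre p l y := by
  funext i
  exact h i i.2

lemma ext_last (l : ℕ) (w : Fin l → ZMod p) : ext0 p l w l = 0 := by
  unfold ext0
  rw [dif_neg (lt_irrefl l)]

/-- division by `p^m` -/
noncomputable def quo (m : ℕ) (z : ℤ_[p]) : ℤ_[p] :=
  open Classical in if h : (p : ℤ_[p]) ^ m ∣ z then h.choose else 0

lemma quo_spec {m : ℕ} {z : ℤ_[p]} (h : (p : ℤ_[p]) ^ m ∣ z) :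
    (p : ℤ_[p]) ^ m * quo m z = z := by
  unfold quo
  rw [dif_pos h]
  exact h.choose_spec.symm

/-- the action of `g` on prefixes -/
def pact (l : ℕ) (g : Pm p) (w : Fin l → ZMod p) : Fin l → ZMod p := pre p l (g (ext0 p l w))

/-- the number `t(g;w)` -/
noncomputable def tt (s l : ℕ) (Φ : Zf p) (g : Pm p) (w : Fin l → ZMod p) : ℤ_[p] :=
  quo (l - s) (Φ (g (ext0 p l w)) - Φ (ext0 p l (pact l g w)))

lemma tt_spec (hB : BHyp p s Q X J α Φ) {l : ℕ} (hl : s ≤ l) (g : Pm p)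
    (w : Fin l → ZMod p) : (p : ℤ_[p]) ^ (l - s) * tt s l Φ g w =
      Φ (g (ext0 p l w)) - Φ (ext0 p l (pact l g w)) :=
  quo_spec (dvd_of_agr hB hl (agr_symm (ext_pre l _)))

lemma pact_mul {l : ℕ} {g : Pm p} (hg : IsTri p g) (h : Pm p) (w : Fin l → ZMod p) :
    pact l (g * h) w = pact l g (pact l h w) := by
  unfold pact
  apply pre_congr
  exact agr_symm (agr_tri hg (ext_pre l _))

lemma pact_one {l : ℕ} (w : Fin l → ZMod p) : pact l 1 w = w := by
  unfold pact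
  exact pre_ext l w

lemma sum_pact (hQ : ∀ g ∈ Q, IsTri p g) {h : Pm p} (hh : h ∈ Q) {l : ℕ}
    (F : (Fin l → ZMod p) → ℤ_[p]) : ∑ w, F (pact l h w) = ∑ w, F w := by
  refine Fintype.sum_bijective (pact l h) ?_ _ _ (fun _ => rfl)
  refine Function.bijective_iff_has_inverse.mpr ⟨pact l h⁻¹, fun w => ?_, fun w => ?_⟩
  · rw [← pact_mul (hQ _ (Q.inv_mem hh)), inv_mul_cancel, pact_one]
  · rw [← pact_mul (hQ _ hh), mul_inv_cancel, pact_one]

/-- the integer valued version of `T` -/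
noncomputable def TT (s l : ℕ) (Φ E : Zf p) (g : Pm p) : ℤ_[p] :=
  ∑ w : Fin l → ZMod p, E (ext0 p l (pact l g w)) * tt s l Φ g w

lemma TT_add (hB : BHyp p s Q X J α Φ) (hE : EHyp p s Q X J Φ e) {E : Zf p}
    (hEE : ∀ g ∈ Q, ∀ x y, Agr p l0 (g x) y → e g x * E x = E y)
    {l : ℕ} (hl : l0 ≤ l) (hl2 : J + s + 4 ≤ l) {g h : Pm p} (hg : g ∈ Q) (hh : h ∈ Q) :
    (p : ℤ_[p]) ^ (s + 2) ∣ TT s l Φ E (g * h) - (TT s l Φ E g + TT s l Φ E h) := by
  have hsJ := hB.A.sJ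
  have h1 : TT s l Φ E g = ∑ w : Fin l → ZMod p,
      E (ext0 p l (pact l g (pact l h w))) * tt s l Φ g (pact l h w) := by
    unfold TT
    exact (sum_pact hB.tri hh (fun w => E (ext0 p l (pact l g w)) * tt s l Φ g w)).symm
  rw [h1]
  unfold TT
  rw [← Finset.sum_add_distrib, ← Finset.sum_sub_distrib]
  refine Finset.dvd_sum (fun w _ => ?_)
  have hgt := hB.tri g hg
  rw [pact_mul hgt]
  set v := pact l h w with hv
  have hvA : Agr p l (ext0 p l v) (h (ext0 p l w)) := ext_pre l _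
  have h2 := hE.gd g hg l (by omega) _ _ hvA
  have h3 := tt_spec hB (by omega : s ≤ l) h w
  have h4 := tt_spec hB (by omega : s ≤ l) g v
  have h5 := tt_spec hB (by omega : s ≤ l) (g * h) w
  rw [pact_mul hgt, ← hv] at h5
  rw [← hv] at h3
  have h6 : (g * h) (ext0 p l w) = g (h (ext0 p l w)) := rfl
  rw [h6] at h5
  have h7 : (p : ℤ_[p]) ^ ((l - s) + (l - J - 1)) ∣ (p : ℤ_[p]) ^ (l - s) *
      (tt s l Φ h w - e g (ext0 p l v) * (tt s l Φ (g * h) w - tt s l Φ g v)) := by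
    convert h2 using 1
    · congr 1; omega
    · linear_combination h3 - e g (ext0 p l v) * (h5 - h4)
  have h8 := dvd_cancel h7
  have h9 : (p : ℤ_[p]) ^ (s + 2) ∣
      tt s l Φ h w - e g (ext0 p l v) * (tt s l Φ (g * h) w - tt s l Φ g v) :=
    (pow_dvd_pow _ (by omega)).trans h8
  have h10 : e g (ext0 p l v) * E (ext0 p l v) = E (ext0 p l (pact l g v)) :=
    hEE g hg _ _ (agr_mono hl (agr_symm (ext_pre l _)))
  rw [← h10]
  have h11 := h9.mul_left (-(E (ext0 p l v)))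
  convert h11 using 1
  ring

lemma TT_ker (hB : BHyp p s Q X J α Φ) {E : Zf p} {l : ℕ} (hl : s ≤ l) {g : Pm p}
    (hk : IsKer p (l + s + 2) g) : (p : ℤ_[p]) ^ (s + 2) ∣ TT s l Φ E g := by
  unfold TT
  refine Finset.dvd_sum (fun w _ => ?_)
  have h1 : pact l g w = w := by
    unfold pact
    rw [pre_congr (agr_mono (by omega) (agr_ker hk (ext0 p l w))), pre_ext]
  have h2 := tt_spec hB hl g w
  rw [h1] at h2
  have h3 := dvd_of_agr hB (by omega : s ≤ l + s + 2) (agr_ker hk (ext0 p l w))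
  rw [← h2] at h3
  have h4 : l + s + 2 - s = (l - s) + (s + 2) := by omega
  rw [h4] at h3
  exact (dvd_cancel h3).mul_left _

lemma label (hB : BHyp p s Q X J α Φ) {l : ℕ} (hl : s ≤ l) {c : ZMod p}
    (hc : ∀ x, (X ^ p ^ (l - s)) x l = x l + c) {z z' : ℕ → ZMod p} {t : ℤ_[p]}
    (hzz : Agr p l z z') (ht : (p : ℤ_[p]) ^ (l - s) * t = Φ z - Φ z') :
    z l - z' l = c * PadicInt.toZMod t := by
  obtain ⟨n, hn⟩ := exists_nat 1 t
  have hYn : ∀ m : ℕ, ((X ^ p ^ (l - s)) ^ m) z' l = z' l + m * c := by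
    intro m
    induction m with
    | zero => simp
    | succ m ih =>
      have h1 : ((X ^ p ^ (l - s)) ^ (m + 1)) z' =
          (X ^ p ^ (l - s)) (((X ^ p ^ (l - s)) ^ m) z') := by rw [pow_succ']; rfl
      rw [h1, hc, ih]
      push_cast
      ring
  have hker := (hB.xp l hl).1
  have hYa : Agr p l (((X ^ p ^ (l - s)) ^ n) z') z' :=
    tri_pow_agr (hB.tri _ (Q.pow_mem hB.XQ _)) (agr_ker hker z') n
  have h2 : (p : ℤ_[p]) ^ (l + 1 - s) ∣ Φ (((X ^ p ^ (l - s)) ^ n) z') - Φ z := by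
    rw [← pow_mul, Phi_pow hB]
    have h3 : Φ z' + ((p ^ (l - s) * n : ℕ) : ℤ_[p]) - Φ z = (p : ℤ_[p]) ^ (l - s) * (n - t) := by
      push_cast
      linear_combination ht
    have h4 : l + 1 - s = (l - s) + 1 := by omega
    rw [h3, h4, pow_add]
    exact mul_dvd_mul_left _ hn
  have h3 := agr_of_dvd hB (by omega : s ≤ l + 1)
    (agr_mono hl (agr_trans hYa (agr_symm hzz))) h2
  have h4 := h3 l (Nat.lt_succ_self l)
  rw [hYn] at h4
  have h5 : PadicInt.toZMod t = (n : ZMod p) := by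
    have h6 : PadicInt.toZMod ((n : ℤ_[p]) - t) = 0 := by
      rw [← RingHom.mem_ker, PadicInt.ker_toZMod, PadicInt.maximalIdeal_eq_span_p,
        Ideal.mem_span_singleton]
      simpa using hn
    rw [map_sub, map_natCast, sub_eq_zero] at h6
    exact h6.symm
  rw [h5, ← h4]
  ring

lemma toZMod_eq_of_dvd {u v : ℤ_[p]} (h : (p : ℤ_[p]) ∣ u - v) :
    PadicInt.toZMod u = PadicInt.toZMod v := by
  have h6 : PadicInt.toZMod (u - v) = 0 := by
    rw [← RingHom.mem_ker, PadicInt.ker_toZMod, PadicInt.maximalIdeal_eq_span_p,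
      Ideal.mem_span_singleton]
    exact h
  rw [map_sub, sub_eq_zero] at h6
  exact h6

lemma TT_tau (hB : BHyp p s Q X J α Φ) {E : Zf p} (hE1 : ∀ x, (p : ℤ_[p]) ∣ E x - 1)
    {l : ℕ} (hl : s ≤ l) {c : ZMod p} (hc : ∀ x, (X ^ p ^ (l - s)) x l = x l + c) (g : Pm p) :
    tau p l g = c * PadicInt.toZMod (TT s l Φ E g) := by
  unfold tau TT
  rw [map_sum, Finset.mul_sum]
  refine Finset.sum_congr rfl (fun w _ => ?_)
  have h1 := label hB hl hc (agr_symm (ext_pre l (g (ext0 p l w)))) (tt_spec hB hl g w)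
  rw [map_mul, toZMod_eq_of_dvd (hE1 _), map_one, one_mul, ← h1, ext_last, ext_last]

end

/-- SG-AB -/
theorem main : Pool.Agent.W37.SG.S_AB := by
  intro _ _ _ hD4 _ hTR p _ s Q X J α Φ e Λ D hB hE hL hD hD0
  have hK := mkKHyp hB hE hL hD hD0
  have hsJ := hB.A.sJ
  obtain ⟨E, hE1, hEE⟩ := partE hK (hTR hD4 p Q hB.tri hB.tau_ne)
  set l := J + s + 4 with hl
  refine ⟨l + s + 2, fun g => PadicInt.toZModPow (s + 2) (TT s l Φ E g), ?_, ?_, ?_⟩
  · intro g hg h hh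
    have h1 := TT_add hB hE hEE (by omega : J + 2 ≤ l) (by omega : J + s + 4 ≤ l) hg hh
    rw [← map_add, ← sub_eq_zero, ← map_sub, ← RingHom.mem_ker, PadicInt.ker_toZModPow,
      Ideal.mem_span_singleton]
    exact h1
  · intro g _ hk
    have h1 := TT_ker (E := E) hB (by omega : s ≤ l) hk
    rw [← RingHom.mem_ker, PadicInt.ker_toZModPow, Ideal.mem_span_singleton]
    exact h1
  · obtain ⟨g, hg, hne⟩ := hB.tau_ne l
    refine ⟨g, hg, ?_⟩
    obtain ⟨c, _, hc⟩ := (hB.xp l (by omega)).2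
    have h1 := TT_tau hB hE1 (by omega : s ≤ l) hc g
    apply RingHom.isUnit_map
    by_contra hnu
    have h2 : PadicInt.toZMod (TT s l Φ E g) = 0 := by
      rw [← RingHom.mem_ker, PadicInt.ker_toZMod]
      exact (IsLocalRing.mem_maximalIdeal _).mpr hnu
    rw [h2, mul_zero] at h1
    exact hne h1

end Pool.Agent.W821.SG
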