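import Pool.Agent.W37.SG.Stm2

/-!
MP_9a3597_al, project SG: SG-AB (the case `D = 0`), first part: elements of `Λ` are constant on
fibres and the kernel acts trivially.
-/

namespace Pool.Agent.W821.SG

open Pool.Agent.W37.SG
open scoped BigOperators

set_option linter.unusedSectionVars false
set_option linter.unusedVariables false

variable {p : ℕ} [hpf : Fact p.Prime]

lemma agr_refl (k : ℕ) (x : ℕ → ZMod p) : Agr p k x x := fun _ _ => rfl

lemma agr_symm {k : ℕ} {x y : ℕ → ZMod p} (h : Agr p k x y) : Agr p k y x :=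
  fun j hj => (h j hj).symm

lemma agr_trans {k : ℕ} {x y z : ℕ → ZMod p} (h : Agr p k x y) (h' : Agr p k y z) :
    Agr p k x z := fun j hj => (h j hj).trans (h' j hj)

lemma agr_mono {k l : ℕ} (hkl : k ≤ l) {x y : ℕ → ZMod p} (h : Agr p l x y) : Agr p k x y :=
  fun j hj => h j (lt_of_lt_of_le hj hkl)

lemma agr_tri {g : Pm p} (hg : IsTri p g) {k : ℕ} {x y : ℕ → ZMod p} (h : Agr p k x y) :
    Agr p k (g x) (g y) := by
  intro j hj
  have h1 := hg j x y (fun i hi => h i (hi.trans hj))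
  rw [h j hj] at h1
  exact sub_left_inj.mp h1

lemma agr_ker {g : Pm p} {k : ℕ} (hg : IsKer p k g) (x : ℕ → ZMod p) : Agr p k (g x) x :=
  fun j hj => hg x j hj

lemma p_ne : (p : ℤ_[p]) ≠ 0 := PadicInt.prime_p.ne_zero

lemma dvd_cancel {m n : ℕ} {z : ℤ_[p]} (h : (p : ℤ_[p]) ^ (m + n) ∣ (p : ℤ_[p]) ^ m * z) :
    (p : ℤ_[p]) ^ n ∣ z := by
  rw [pow_add] at h
  exact (mul_dvd_mul_iff_left (pow_ne_zero m p_ne)).mp h

lemma eq_zero_of_dvd {z : ℤ_[p]} (h : ∀ n : ℕ, (p : ℤ_[p]) ^ n ∣ z) : z = 0 := by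
  by_contra hz
  have h1 := FiniteMultiplicity.of_prime_left (PadicInt.prime_p (p := p)) hz
  obtain ⟨n, hn⟩ := h1
  exact hn (h _)

section
variable {s J α : ℕ} {Q : Subgroup (Pm p)} {X : Pm p} {Φ : Zf p} {e : Pm p → Zf p}

lemma e_ne (hE : EHyp p s Q X J Φ e) {g : Pm p} (hg : g ∈ Q) (x : ℕ → ZMod p) : e g x ≠ 0 := by
  intro h0
  have h1 := hE.one g hg x
  rw [h0, zero_sub, dvd_neg] at h1
  exact PadicInt.prime_p.not_isUnit (isUnit_of_dvd_one h1)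

lemma e_one (hE : EHyp p s Q X J Φ e) (x : ℕ → ZMod p) : e 1 x = 1 := by
  have h1 := hE.mul 1 Q.one_mem 1 Q.one_mem x
  simp only [mul_one, Equiv.Perm.coe_one, id_eq] at h1
  have h2 := e_ne hE Q.one_mem x
  exact (mul_left_cancel₀ h2 (by rw [mul_one]; exact h1)).symm

lemma e_pow (hE : EHyp p s Q X J Φ e) {W : Pm p} (hW : W ∈ Q) (h1 : ∀ x, e W x = 1) (n : ℕ)
    (x : ℕ → ZMod p) : e (W ^ n) x = 1 := by
  induction n with
  | zero => rw [pow_zero]; exact e_one hE x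
  | succ n ih =>
    rw [pow_succ', hE.mul W hW _ (Q.pow_mem hW n), h1, ih, one_mul]

lemma e_X (hE : EHyp p s Q X J Φ e) (hX : X ∈ Q) (n : ℕ) (x : ℕ → ZMod p) :
    e (X ^ n) x = 1 := e_pow hE hX hE.X1 n x

variable {Λ : Submodule ℤ_[p] (Zf p)} {D : Zf p → Zf p}

lemma pure_pow (hL : LHyp p Q J α e Λ) (c : ℕ) : ∀ f ∈ Λ, (∀ x, (p : ℤ_[p]) ^ c ∣ f x) →
    ∃ h ∈ Λ, ∀ x, f x = (p : ℤ_[p]) ^ c * h x := by
  induction c with
  | zero => intro f hf _; exact ⟨f, hf, fun x => by simp⟩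
  | succ c ih =>
    intro f hf hd
    obtain ⟨h, hh, h1⟩ := ih f hf (fun x => (pow_dvd_pow _ (Nat.le_succ c)).trans (hd x))
    have h2 : ∀ x, (p : ℤ_[p]) ∣ h x := by
      intro x
      have h3 := hd x
      rw [h1 x] at h3
      simpa using dvd_cancel h3
    obtain ⟨h', hh', h4⟩ := hL.pure h hh h2
    exact ⟨h', hh', fun x => by rw [h1, h4, pow_succ]; ring⟩

lemma comp_mem (hE : EHyp p s Q X J Φ e) (hL : LHyp p Q J α e Λ) (hX : X ∈ Q) (n : ℕ)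
    {f : Zf p} (hf : f ∈ Λ) : (fun x => f ((X ^ n) x)) ∈ Λ := by
  have h := hL.act (X ^ n) (Q.pow_mem hX n) f hf
  have h2 : (fun x => f ((X ^ n) x) * e (X ^ n) x) = fun x => f ((X ^ n) x) := by
    funext x
    rw [e_X hE hX n x, mul_one]
  rwa [h2] at h

/-- `W = X ^ a`. If `p^c` divides `f (W x) - f x` for all `f`, then
`f (W^n x) - f x = n (f (W x) - f x)` modulo `p^(2c)`. -/
lemma second (hE : EHyp p s Q X J Φ e) (hL : LHyp p Q J α e Λ) (hX : X ∈ Q) (a c : ℕ)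
    (hc : ∀ f ∈ Λ, ∀ x, (p : ℤ_[p]) ^ c ∣ f ((X ^ a) x) - f x) (n : ℕ) :
    ∀ f ∈ Λ, ∀ x, (p : ℤ_[p]) ^ (2 * c) ∣ f (((X ^ a) ^ n) x) - f x - n * (f ((X ^ a) x) - f x) := by
  have hcn : ∀ n : ℕ, ∀ f ∈ Λ, ∀ x, (p : ℤ_[p]) ^ c ∣ f (((X ^ a) ^ n) x) - f x := by
    intro n
    induction n with
    | zero => intro f _ x; simp
    | succ n ih =>
      intro f hf x
      have h1 := ih f hf ((X ^ a) x)
      have h2 := hc f hf x
      have h3 := dvd_add h1 h2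
      have h4 : ((X ^ a) ^ n) ((X ^ a) x) = ((X ^ a) ^ (n + 1)) x := by
        rw [pow_succ]; rfl
      rw [h4] at h3
      convert h3 using 1
      ring
  induction n with
  | zero => intro f _ x; simp
  | succ n ih =>
    intro f hf x
    have hmem : (fun x => f (((X ^ a) ^ n) x) - f x) ∈ Λ := by
      have h1 : (fun x => f (((X ^ a) ^ n) x)) ∈ Λ := by
        rw [← pow_mul]
        exact comp_mem hE hL hX _ hf
      exact Λ.sub_mem h1 hf
    obtain ⟨h, hh, h1⟩ := pure_pow hL c _ hmem (fun x => hcn n f hf x)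
    have h2 := ih f hf x
    have h3 := hc h hh x
    have h4 : ((X ^ a) ^ (n + 1)) x = ((X ^ a) ^ n) ((X ^ a) x) := by
      rw [pow_succ]; rfl
    have h5 : (p : ℤ_[p]) ^ (2 * c) ∣ (p : ℤ_[p]) ^ c * (h ((X ^ a) x) - h x) := by
      rw [two_mul, pow_add]
      exact mul_dvd_mul_left _ h3
    have h6 := dvd_add h5 h2
    convert h6 using 1
    have h7 := h1 x
    have h8 := h1 ((X ^ a) x)
    beta_reduce at h7 h8
    rw [h4]
    push_cast
    linear_combination h8 - h7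

lemma Y_agr {j : ℕ} (hB : BHyp p s Q X J α Φ) (hj : s ≤ j) (x : ℕ → ZMod p) :
    Agr p j x ((X ^ p ^ (j - s)) x) := agr_symm (agr_ker (hB.xp j hj).1 x)

/-- part (a) -/
lemma partA (hB : BHyp p s Q X J α Φ) (hE : EHyp p s Q X J Φ e) (hL : LHyp p Q J α e Λ)
    (hD : DHyp p s J Φ Λ D) (hD0 : ∀ f ∈ Λ, ∀ x, D f x = 0) :
    ∀ f ∈ Λ, ∀ x, f ((X ^ p ^ (J + 1 - s)) x) = f x := by
  have hsJ := hB.A.sJ
  have hsd : ∀ f ∈ Λ, ∀ i, J ≤ i → ∀ x,
      (p : ℤ_[p]) ^ (2 * (i - J)) ∣ f ((X ^ p ^ (i - s)) x) - f x := by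
    intro f hf i hi x
    have h1 := hD.sd f hf i hi x _ (Y_agr hB (hsJ.trans hi) x)
    rw [hD0 f hf x, mul_zero, sub_zero] at h1
    have h2 : 2 * i - J - s = (J - s) + 2 * (i - J) := by omega
    rw [h2] at h1
    exact dvd_cancel h1
  have hall : ∀ c : ℕ, ∀ f ∈ Λ, ∀ x,
      (p : ℤ_[p]) ^ (c + 1) ∣ f ((X ^ p ^ (J + 1 - s)) x) - f x := by
    intro c
    induction c with
    | zero =>
      intro f hf x
      have h1 := hsd f hf (J + 1) (Nat.le_succ J) x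
      exact (pow_dvd_pow _ (by omega)).trans h1
    | succ c ih =>
      intro f hf x
      have h1 := second hE hL hB.XQ (p ^ (J + 1 - s)) (c + 1) ih (p ^ c) f hf x
      have h2 : (X ^ p ^ (J + 1 - s)) ^ p ^ c = X ^ p ^ (J + 1 + c - s) := by
        rw [← pow_mul, ← pow_add]
        congr 2
        omega
      rw [h2] at h1
      have h3 := hsd f hf (J + 1 + c) (by omega) x
      have h4 : 2 * (J + 1 + c - J) = 2 * (c + 1) := by omega
      rw [h4] at h3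
      have h5 := dvd_sub h3 h1
      have h6 : (p : ℤ_[p]) ^ (c + (c + 1 + 1)) ∣
          (p : ℤ_[p]) ^ c * (f ((X ^ p ^ (J + 1 - s)) x) - f x) := by
        convert h5 using 1
        · congr 1; omega
        · push_cast; ring
      exact dvd_cancel h6
  intro f hf x
  exact sub_eq_zero.mp (eq_zero_of_dvd (fun n => (pow_dvd_pow _ (Nat.le_succ n)).trans
    (hall n f hf x)))

/-- the subgroup `N` -/
def Nsub (hE : EHyp p s Q X J Φ e) (hL : LHyp p Q J α e Λ) : Subgroup (Pm p) where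
  carrier := {g | g ∈ Q ∧ ∀ f ∈ Λ, ∀ x, f (g x) * e g x = f x}
  one_mem' := ⟨Q.one_mem, fun f _ x => by rw [e_one hE, mul_one]; rfl⟩
  mul_mem' := by
    rintro g h ⟨hg, hg'⟩ ⟨hh, hh'⟩
    refine ⟨Q.mul_mem hg hh, fun f hf x => ?_⟩
    rw [hE.mul g hg h hh x, ← mul_assoc]
    have h1 := hg' f hf (h x)
    have h2 : f ((g * h) x) = f (g (h x)) := rfl
    rw [h2, h1, hh' f hf x]
  inv_mem' := by
    rintro g ⟨hg, hg'⟩
    refine ⟨Q.inv_mem hg, fun f hf x => ?_⟩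
    have h1 := hg' f hf (g⁻¹ x)
    have h2 : g (g⁻¹ x) = x := by simp
    have h3 := hE.mul g hg g⁻¹ (Q.inv_mem hg) x
    rw [mul_inv_cancel, e_one hE] at h3
    rw [h2] at h1
    rw [← h1, mul_assoc, ← h3, mul_one]

lemma mem_Nsub (hE : EHyp p s Q X J Φ e) (hL : LHyp p Q J α e Λ) (g : Pm p) :
    g ∈ Nsub hE hL ↔ g ∈ Q ∧ ∀ f ∈ Λ, ∀ x, f (g x) * e g x = f x := Iff.rfl

lemma Nsub_conj (hE : EHyp p s Q X J Φ e) (hL : LHyp p Q J α e Λ) (g : Pm p)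
    (hg : g ∈ Nsub hE hL) (h : Pm p) (hh : h ∈ Q) : h⁻¹ * g * h ∈ Nsub hE hL := by
  rw [mem_Nsub] at hg ⊢
  obtain ⟨hgQ, hg'⟩ := hg
  have hi := Q.inv_mem hh
  refine ⟨Q.mul_mem (Q.mul_mem hi hgQ) hh, fun f hf x => ?_⟩
  have h1 := hg' _ (hL.act h⁻¹ hi f hf) (h x)
  beta_reduce at h1
  have h2 : (h⁻¹ * g * h) x = h⁻¹ (g (h x)) := rfl
  rw [h2, hE.mul _ (Q.mul_mem hi hgQ) h hh x, hE.mul _ hi g hgQ (h x), ← mul_assoc, ← mul_assoc,
    h1, mul_assoc, ← hE.mul _ hi h hh x, inv_mul_cancel, e_one hE, mul_one]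
  simp

lemma Phi_pow (hB : BHyp p s Q X J α Φ) (n : ℕ) (x : ℕ → ZMod p) :
    Φ ((X ^ n) x) = Φ x + n := by
  induction n with
  | zero => simp
  | succ n ih =>
    have h1 : (X ^ (n + 1)) x = X ((X ^ n) x) := by rw [pow_succ']; rfl
    rw [h1, hB.chart.shift, ih]
    push_cast
    ring

lemma dvd_of_agr (hB : BHyp p s Q X J α Φ) {k : ℕ} (hk : s ≤ k) {x y : ℕ → ZMod p}
    (h : Agr p k x y) : (p : ℤ_[p]) ^ (k - s) ∣ Φ x - Φ y := by
  have h1 : s + (k - s) = k := by omega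
  rw [← hB.chart.base (k - s) x y (agr_mono hk h), h1]
  exact h

lemma agr_of_dvd (hB : BHyp p s Q X J α Φ) {k : ℕ} (hk : s ≤ k) {x y : ℕ → ZMod p}
    (h0 : Agr p s x y) (h : (p : ℤ_[p]) ^ (k - s) ∣ Φ x - Φ y) : Agr p k x y := by
  have h1 : s + (k - s) = k := by omega
  have := (hB.chart.base (k - s) x y h0).mpr h
  rwa [h1] at this

lemma e_ker (hB : BHyp p s Q X J α Φ) (hE : EHyp p s Q X J Φ e) {k : ℕ} (hk : J + 1 ≤ k)
    {w : Pm p} (hw : w ∈ Q) (hwk : IsKer p k w) (x : ℕ → ZMod p) :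
    (p : ℤ_[p]) ^ (k - J - 1) ∣ e w x - 1 := by
  have hsJ := hB.A.sJ
  have h1 := hE.lim w hw k (by omega) x
  have hY : X ^ p ^ (k - s) ∈ Q := Q.pow_mem hB.XQ _
  have h2 := hB.A.comm k k (by omega) (by omega) _ hY w hw (hB.xp k (by omega)).1 hwk
  have h3 : (w⁻¹ * X ^ p ^ (k - s) * w) x = (X ^ p ^ (k - s)) ((cm (X ^ p ^ (k - s)) w) x) := by
    have : w⁻¹ * X ^ p ^ (k - s) * w = X ^ p ^ (k - s) * cm (X ^ p ^ (k - s)) w := by
      unfold cm; group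
    rw [this]; rfl
  rw [h3, Phi_pow hB] at h1
  have h4 := dvd_of_agr hB (by omega : s ≤ k + k - J) (agr_ker h2 x)
  have h5 : (p : ℤ_[p]) ^ (2 * k - J - s - 1) ∣
      Φ ((cm (X ^ p ^ (k - s)) w) x) - Φ x := (pow_dvd_pow _ (by omega)).trans h4
  have h6 := dvd_sub h5 h1
  have h7 : (p : ℤ_[p]) ^ ((k - s) + (k - J - 1)) ∣ (p : ℤ_[p]) ^ (k - s) * (e w x - 1) := by
    convert h6 using 1
    · congr 1; omega
    · push_cast; ring
  exact dvd_cancel h7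

/-- part (b) -/
lemma partB (hB : BHyp p s Q X J α Φ) (hE : EHyp p s Q X J Φ e) (hL : LHyp p Q J α e Λ)
    (hD : DHyp p s J Φ Λ D) (hD0 : ∀ f ∈ Λ, ∀ x, D f x = 0) {g : Pm p} (hg : g ∈ Q)
    (hgk : IsKer p (J + 2) g) : ∀ f ∈ Λ, ∀ x, f (g x) * e g x = f x := by
  have hA := partA hB hE hL hD hD0
  have hXN : X ^ p ^ (J + 1 - s) ∈ Nsub hE hL := by
    rw [mem_Nsub]
    refine ⟨Q.pow_mem hB.XQ _, fun f hf x => ?_⟩
    rw [e_X hE hB.XQ, mul_one]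
    exact hA f hf x
  have hnc := hB.A.nc (J + 1) (Nat.le_succ J) (Nsub hE hL) (fun g hg => hg.1)
    (fun g hg h hh => Nsub_conj hE hL g hg h hh) hXN
  intro f hf x
  refine sub_eq_zero.mp (eq_zero_of_dvd (fun n => ?_))
  obtain ⟨h, hh, hk⟩ := hnc (n + J + 1) g hg hgk
  have hhQ : h ∈ Q := hh.1
  have hw : h⁻¹ * g ∈ Q := Q.mul_mem (Q.inv_mem hhQ) hg
  have h1 : g = h * (h⁻¹ * g) := by group
  have h2 : f (g x) * e g x = f ((h⁻¹ * g) x) * e (h⁻¹ * g) x := by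
    have h3 : e g x = e h ((h⁻¹ * g) x) * e (h⁻¹ * g) x := by
      rw [← hE.mul h hhQ _ hw x, ← h1]
    have h4 : g x = h ((h⁻¹ * g) x) := by
      conv_lhs => rw [h1]
      rfl
    rw [h3, ← mul_assoc]
    conv_lhs => rw [h4]
    rw [hh.2 f hf]
  rw [h2]
  have h5 := e_ker hB hE (by omega : J + 1 ≤ n + J + 1) hw hk x
  have h6 := hL.lip f hf (n + J + 1) (by omega) _ _ (agr_ker hk x)
  have h7 : (p : ℤ_[p]) ^ n ∣ e (h⁻¹ * g) x - 1 := (pow_dvd_pow _ (by omega)).trans h5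
  have h8 : (p : ℤ_[p]) ^ n ∣ f ((h⁻¹ * g) x) - f x := (pow_dvd_pow _ (by omega)).trans h6
  have h9 := dvd_add (h8.mul_right (e (h⁻¹ * g) x)) (h7.mul_left (f x))
  convert h9 using 1
  ring

lemma partB1 (hB : BHyp p s Q X J α Φ) (hE : EHyp p s Q X J Φ e) (hL : LHyp p Q J α e Λ)
    (hD : DHyp p s J Φ Λ D) (hD0 : ∀ f ∈ Λ, ∀ x, D f x = 0) {g : Pm p} (hg : g ∈ Q)
    (hgk : IsKer p (J + 2) g) (x : ℕ → ZMod p) : e g x = 1 := by
  have := partB hB hE hL hD hD0 hg hgk _ hL.one_mem x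
  simpa using this

lemma exists_nat (r : ℕ) (z : ℤ_[p]) : ∃ t : ℕ, (p : ℤ_[p]) ^ r ∣ (t : ℤ_[p]) - z := by
  refine ⟨z.appr r, ?_⟩
  have h := PadicInt.appr_spec r z
  rw [Ideal.mem_span_singleton] at h
  rw [← dvd_neg]
  convert h using 1
  ring

/-- part (c) -/
lemma partC (hB : BHyp p s Q X J α Φ) (hE : EHyp p s Q X J Φ e) (hL : LHyp p Q J α e Λ)
    (hD : DHyp p s J Φ Λ D) (hD0 : ∀ f ∈ Λ, ∀ x, D f x = 0) {f : Zf p} (hf : f ∈ Λ)
    {x y : ℕ → ZMod p} (hxy : Agr p (J + 1) x y) : f x = f y := by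
  have hA := partA hB hE hL hD hD0
  have hsJ := hB.A.sJ
  have hAn : ∀ n : ℕ, f (((X ^ p ^ (J + 1 - s)) ^ n) x) = f x := by
    intro n
    induction n with
    | zero => rfl
    | succ n ih =>
      have h1 : ((X ^ p ^ (J + 1 - s)) ^ (n + 1)) x =
          (X ^ p ^ (J + 1 - s)) (((X ^ p ^ (J + 1 - s)) ^ n) x) := by rw [pow_succ']; rfl
      rw [h1, hA f hf, ih]
  have h1 := dvd_of_agr hB (by omega : s ≤ J + 1) hxy
  refine sub_eq_zero.mp (eq_zero_of_dvd (fun n => ?_))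
  obtain ⟨z, hz⟩ := h1
  obtain ⟨t, ht⟩ := exists_nat n (-z)
  have hker : IsKer p (J + 1) ((X ^ p ^ (J + 1 - s)) ^ t) := by
    have h0 := (hB.xp (J + 1) (by omega)).1
    have : ∀ m : ℕ, IsKer p (J + 1) ((X ^ p ^ (J + 1 - s)) ^ m) := by
      intro m
      induction m with
      | zero => intro x i _; rfl
      | succ m ih =>
        intro x i hi
        have h1 : ((X ^ p ^ (J + 1 - s)) ^ (m + 1)) x =
          (X ^ p ^ (J + 1 - s)) (((X ^ p ^ (J + 1 - s)) ^ m) x) := by rw [pow_succ']; rfl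
        rw [h1, h0 _ i hi, ih x i hi]
    exact this t
  have h2 : Agr p (J + 1) (((X ^ p ^ (J + 1 - s)) ^ t) x) y := agr_trans (agr_ker hker x) hxy
  have h3 : (p : ℤ_[p]) ^ (J + 1 + n - s) ∣ Φ (((X ^ p ^ (J + 1 - s)) ^ t) x) - Φ y := by
    rw [← pow_mul, Phi_pow hB]
    have h4 : Φ x + ((p ^ (J + 1 - s) * t : ℕ) : ℤ_[p]) - Φ y =
        (p : ℤ_[p]) ^ (J + 1 - s) * (t - -z) := by
      have : Φ x - Φ y = (p : ℤ_[p]) ^ (J + 1 - s) * z := hz
      push_cast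
      linear_combination this
    rw [h4]
    have h5 : J + 1 + n - s = (J + 1 - s) + n := by omega
    rw [h5, pow_add]
    exact mul_dvd_mul_left _ ht
  have h4 := agr_of_dvd hB (by omega : s ≤ J + 1 + n) (agr_mono (by omega) h2) h3
  have h5 := hL.lip f hf (J + 1 + n) (by omega) _ _ h4
  rw [hAn t] at h5
  exact (pow_dvd_pow _ (by omega)).trans h5

end

end Pool.Agent.W821.SG
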